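import Mathlib
import Pool.Agent.H1.FocalB

namespace Pool.Agent.Results.MP_fa373d_co.NotTight
open Finset Filter Topology

/-- `x0` (the focus) and `x 0, …, x (r-2)` are `r` distinct vectors, and in every coordinate at
least `r - 2` of the `r - 1` non-focus vectors agree with the focus. -/
def IsFocal (r n : ℕ) (x0 : Fin n → Bool) (x : Fin (r - 1) → Fin n → Bool) : Prop :=
  Function.Injective x ∧ (∀ j, x j ≠ x0) ∧
    ∀ i, r - 2 ≤ (Finset.univ.filter (fun j => x j i = x0 i)).card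

/-- no `r` members of `F` form a focal family -/
def FocalFree (r n : ℕ) (F : Finset (Fin n → Bool)) : Prop :=
  ¬ ∃ x0 ∈ F, ∃ x : Fin (r - 1) → Fin n → Bool, (∀ j, x j ∈ F) ∧ IsFocal r n x0 x

open Classical in
/-- the largest size of a focal-free subset of `{0,1}^n` -/
noncomputable def g (r n : ℕ) : ℕ :=
  ((Finset.univ : Finset (Finset (Fin n → Bool))).filter (FocalFree r n)).sup Finset.card

open Pool.Agent.H1.Focal

lemma ff_of (k n : ℕ) (F : Finset (Fin n → Bool)) (h : FocalFree (k + 3) n F) : FF k F := by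
  intro x hx y hyF hyx hd
  refine h ⟨x, hx, y, hyF, ?_, hyx, ?_⟩
  · intro l l' hll
    by_contra hne
    apply hyx l
    funext i
    rcases hd l l' i hne with h1 | h1
    · exact h1
    · rw [hll]; exact h1
  · intro i
    have h1 := Finset.card_filter_add_card_filter_not (s := (Finset.univ : Finset (Fin (k + 2))))
      (fun j => y j i = x i)
    have h2 : (Finset.univ.filter (fun j : Fin (k + 2) => ¬ y j i = x i)).card ≤ 1 := by
      rw [Finset.card_le_one]
      intro a ha b hb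
      by_contra hne
      rcases hd a b i hne with h | h
      · exact (Finset.mem_filter.1 ha).2 h
      · exact (Finset.mem_filter.1 hb).2 h
    rw [Finset.card_univ, Fintype.card_fin] at h1
    show k + 1 ≤ (Finset.univ.filter (fun j : Fin (k + 2) => y j i = x i)).card
    omega

lemma bound (k n m s p : ℕ) (hp : 7 ≤ p) (hm : (k + 2) * m ≤ n) (h1 : (k + 1) * s + p ≤ m)
    (h2 : 2 * (5 * (2 ^ p) ^ 3) ^ 2 < m) (F : Finset (Fin n → Bool)) (hF : FF k F) :
    (F.card : ℝ) ≤ 2 ^ (n - m) * ((k + 1) / 2 ^ s + 128 * 2 ^ ((k + 1) * s) / 2 ^ p) := by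
  classical
  have hcard : Fintype.card ((Fin k × Fin (m + s)) ⊕ Fin (m + s + p)) ≤ Fintype.card (Fin n) := by
    simp only [Fintype.card_sum, Fintype.card_prod, Fintype.card_fin]
    nlinarith
  obtain ⟨e⟩ := Function.Embedding.nonempty_of_card_le hcard
  set U : Fin k → Finset (Fin n) := fun l => Finset.univ.image (fun a => e (Sum.inl (l, a))) with hU
  set T : Finset (Fin n) := Finset.univ.image (fun a => e (Sum.inr a)) with hT
  set S : Finset (Fin n) := Finset.univ.image e with hS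
  have cU : ∀ l, (U l).card = m + s := by
    intro l
    rw [hU, Finset.card_image_of_injective _ (fun a b h => by simpa using e.injective h)]; simp
  have cT : T.card = m + s + p := by
    rw [hT, Finset.card_image_of_injective _ (fun a b h => by simpa using e.injective h)]; simp
  have cS : S.card = k * (m + s) + (m + s + p) := by
    rw [hS, Finset.card_image_of_injective _ e.injective]; simp
  obtain ⟨p', rfl⟩ : ∃ p', p = p' + 2 := ⟨p - 2, by omega⟩
  have hq : 31 ≤ 2 ^ p' := by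
    have : 2 ^ 5 ≤ 2 ^ p' := Nat.pow_le_pow_right (by norm_num) (by omega)
    omega
  have hM : 4 * 2 ^ p' = 2 ^ (p' + 2) := by ring
  have hc := core k F hF U T S
    (fun l a ha => by
      obtain ⟨b, -, rfl⟩ := Finset.mem_image.1 ha
      exact Finset.mem_image_of_mem _ (Finset.mem_univ _))
    (fun a ha => by
      obtain ⟨b, -, rfl⟩ := Finset.mem_image.1 ha
      exact Finset.mem_image_of_mem _ (Finset.mem_univ _))
    (fun l l' hne => by
      rw [Finset.disjoint_left]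
      intro a ha hb
      obtain ⟨b, -, rfl⟩ := Finset.mem_image.1 ha
      obtain ⟨c, -, hc⟩ := Finset.mem_image.1 hb
      have := e.injective hc
      simp only [Sum.inl.injEq, Prod.mk.injEq] at this
      exact hne this.1.symm)
    (fun l => by
      rw [Finset.disjoint_left]
      intro a ha hb
      obtain ⟨b, -, rfl⟩ := Finset.mem_image.1 ha
      obtain ⟨c, -, hc⟩ := Finset.mem_image.1 hb
      have := e.injective hc
      simp at this)
    (2 ^ p') hq (by rw [hM, cT]; omega)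
  simp only [Finset.card_compl, cU, cT, cS, Fintype.card_fin, Finset.sum_const, Finset.card_univ,
    nsmul_eq_mul, hM] at hc
  set p := p' + 2 with hpdef
  obtain ⟨d, hd⟩ : ∃ d, n = m + s + p + d := ⟨n - (m + s + p), by
    have : m + s + p ≤ n := by nlinarith
    omega⟩
  have e1 : n - (m + s) = p + d := by omega
  have e2 : n - (m + s + p) = d := by omega
  have e3 : n - m = s + p + d := by omega
  have e4 : (2:ℝ) ^ (k * (m + s) + (m + s + p)) ≤ 2 ^ (s + p + d) * 2 ^ ((k + 1) * s) * 2 ^ p := by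
    rw [← pow_add, ← pow_add]
    apply pow_le_pow_right₀ (by norm_num)
    nlinarith
  rw [e1, e2] at hc
  rw [e3]
  push_cast at hc
  have hP : (0:ℝ) < 2 ^ p := by positivity
  have hs : (0:ℝ) < 2 ^ s := by positivity
  have e5 : (2:ℝ) ^ (s + p + d) * ((k + 1) / 2 ^ s + 128 * 2 ^ ((k + 1) * s) / 2 ^ p) =
      (k + 1) * 2 ^ (p + d) + 128 * (2 ^ (s + p + d) * 2 ^ ((k + 1) * s) * 2 ^ p) / (2 ^ p) ^ 2 := by
    rw [add_assoc s, pow_add 2 s]
    field_simp
  rw [e5]
  have e6 : (F.card : ℝ) - (k + 1) * 2 ^ (p + d) ≤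
      128 * (2 ^ (s + p + d) * 2 ^ ((k + 1) * s) * 2 ^ p) / (2 ^ p) ^ 2 := by
    rw [le_div_iff₀ (by positivity)]
    rw [pow_add 2 p d] at hc ⊢
    nlinarith
  linarith

theorem result (r : ℕ) (hr : 3 ≤ r) :
    Tendsto (fun n : ℕ => (g r n : ℝ) / (2:ℝ) ^ (((r:ℝ) - 2) * n / ((r:ℝ) - 1))) atTop (𝓝 0) := by
  obtain ⟨k, rfl⟩ : ∃ k, r = k + 3 := ⟨r - 3, by omega⟩
  rw [Metric.tendsto_atTop]
  intro ε hε
  obtain ⟨s, hs⟩ : ∃ s : ℕ, ((k:ℝ) + 1) / (ε / 8) < 2 ^ s := pow_unbounded_of_one_lt _ (by norm_num)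
  obtain ⟨p0, hp0⟩ : ∃ p : ℕ, (128 * 2 ^ ((k + 1) * s) : ℝ) / (ε / 8) < 2 ^ p :=
    pow_unbounded_of_one_lt _ (by norm_num)
  obtain ⟨p, hp⟩ : ∃ p, p = p0 + 7 := ⟨_, rfl⟩
  have hp1 : (2:ℝ) ^ p0 ≤ 2 ^ p := pow_le_pow_right₀ (by norm_num) (by omega)
  obtain ⟨Z, hZ⟩ : ∃ Z, Z = 2 * (5 * (2 ^ p) ^ 3) ^ 2 := ⟨_, rfl⟩
  obtain ⟨m0, hm0⟩ : ∃ m0, m0 = (k + 1) * s + p + Z + 1 := ⟨_, rfl⟩
  refine ⟨(k + 2) * m0, fun n hn => ?_⟩
  obtain ⟨m, hm⟩ : ∃ m, m = n / (k + 2) := ⟨_, rfl⟩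
  have hmm : m0 ≤ m := by
    rw [hm, Nat.le_div_iff_mul_le (by omega)]; linarith
  have hmn : (k + 2) * m ≤ n := hm ▸ Nat.mul_div_le n (k + 2)
  have hmn2 : n < (k + 2) * (m + 1) := hm ▸ Nat.lt_mul_div_succ n (by omega)
  have hg : (g (k + 3) n : ℝ) ≤
      2 ^ (n - m) * ((k + 1) / 2 ^ s + 128 * 2 ^ ((k + 1) * s) / 2 ^ p) := by
    classical
    unfold g
    obtain ⟨F, hF, he⟩ := Finset.exists_mem_eq_sup
      ((Finset.univ : Finset (Finset (Fin n → Bool))).filter (FocalFree (k + 3) n))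
      ⟨∅, Finset.mem_filter.2 ⟨Finset.mem_univ _, by simp [FocalFree]⟩⟩ Finset.card
    rw [he]
    exact bound k n m s p (by omega) hmn (by omega) (by rw [← hZ]; omega) F
      (ff_of k n F (Finset.mem_filter.1 hF).2)
  have hE : (0:ℝ) < (2:ℝ) ^ ((((k + 3 : ℕ) : ℝ) - 2) * n / (((k + 3 : ℕ) : ℝ) - 1)) := by positivity
  have h2 : (2:ℝ) ^ (n - m) ≤ 2 * (2:ℝ) ^ ((((k + 3 : ℕ) : ℝ) - 2) * n / (((k + 3 : ℕ) : ℝ) - 1)) := by
    rw [← Real.rpow_natCast, mul_comm, ← Real.rpow_add_one (by norm_num)]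
    apply Real.rpow_le_rpow_of_exponent_le (by norm_num)
    have hle : m ≤ n := by nlinarith
    rw [Nat.cast_sub hle]
    push_cast
    have hk : (0:ℝ) < (k:ℝ) + 3 - 1 := by
      have : (0:ℝ) ≤ k := by positivity
      linarith
    have h3 : (n:ℝ) < (k + 2) * (m + 1) := by exact_mod_cast hmn2
    rw [← sub_le_iff_le_add, le_div_iff₀ hk]
    nlinarith
  have a1 : ((k:ℝ) + 1) / 2 ^ s < ε / 8 := by
    rw [div_lt_iff₀ (by positivity)] at hs ⊢
    linarith
  have a2 : (128 * 2 ^ ((k + 1) * s) : ℝ) / 2 ^ p < ε / 8 := by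
    have := hp0.trans_le hp1
    rw [div_lt_iff₀ (by positivity)] at this ⊢
    linarith
  rw [Real.dist_eq, sub_zero, abs_of_nonneg (by positivity), div_lt_iff₀ hE]
  have a3 : (0:ℝ) < 2 ^ (n - m) := by positivity
  have a4 : (2:ℝ) ^ (n - m) * ((k + 1) / 2 ^ s + 128 * 2 ^ ((k + 1) * s) / 2 ^ p) ≤
      2 ^ (n - m) * (ε / 4) := mul_le_mul_of_nonneg_left (by linarith) a3.le
  nlinarith

end Pool.Agent.Results.MP_fa373d_co.NotTight
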